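import Pool.Agent.Lib.MP_a542cf_al.R.Final3

/-!
# Nielsen orbits of generating pairs of SL_2(F_p) by commutator trace: most primes, all levels

`MW.orbitsAt p k` is the set of Nielsen orbits of generating pairs of `SL_2(F_p)` at level `k`
(trace of the commutator), `MW.numOrbits p k` their number and `MW.expected p k` the number predicted
by McCullough and Wanderley at a level `k ≠ 2`: two if `k = -2` and `p ≡ 1 mod 4`, otherwise one.
-/

namespace Pool.Agent.Results.MP_a542cf_al.AllLevelsMostPrimes

open MW

/-- For every `θ > 2/3` and all large `X` the conjecture of McCullough and Wanderley holds at all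
levels `k ≠ 2` for all primes `p ≤ X` with at most `exp((log X)^θ)` exceptions. -/
theorem result (θ : ℝ) (hθ : 2 / 3 < θ) : ∃ X₀ : ℕ, ∀ X : ℕ, X₀ ≤ X →
    ∃ B : Finset ℕ, (B.card : ℝ) ≤ Real.exp ((Real.log X) ^ θ) ∧
      ∀ (p : ℕ) [Fact p.Prime], p ≤ X → p ∉ B →
      ∀ k : ZMod p, k ≠ 2 → numOrbits p k = expected p k :=
  all_levels_most3 θ hθ

end Pool.Agent.Results.MP_a542cf_al.AllLevelsMostPrimes
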