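import Pool.Agent.Lib.MP_a542cf_al.E.Few

/-!
# Nielsen orbits of generating pairs of SL_2(F_p) by commutator trace: an explicit criterion

`MW.orbitsAt p k` is the set of Nielsen orbits of generating pairs of `SL_2(F_p)` at level `k`
(trace of the commutator), `MW.numOrbits p k` their number and `MW.expected p k` the number predicted
by McCullough and Wanderley at a level `k ≠ 2`: two if `k = -2` and `p ≡ 1 mod 4`, otherwise one.

`MW.Dt n t` is the number of divisors `≤ t` of `n - 1` plus the number of divisors `≤ t` of `n + 1`,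
and `MW.FewDiv n` says that `2 ^ 21 * (MW.Dt n t) ^ 3 ≤ t` for every natural number `t` with
`log n ≤ t ^ 9`.
-/

namespace Pool.Agent.Results.MP_a542cf_al.FewDivisorsAllLevels

open MW

open Classical in
/-- The conjecture of McCullough and Wanderley holds at all levels `k ≠ 2` for every large prime `p`
with `FewDiv p`; for every `A` all but `O_A(x / (log x)^A)` natural numbers `n ≤ x` satisfy
`FewDiv n`. -/
theorem result :
    (∃ p₀ : ℕ, ∀ (p : ℕ) [Fact p.Prime], p₀ ≤ p → FewDiv p →
      ∀ k : ZMod p, k ≠ 2 → numOrbits p k = expected p k) ∧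
    ∀ A : ℕ, ∃ C : ℝ, ∀ x : ℕ, 2 ≤ x →
      (((Finset.range (x + 1)).filter (fun n => ¬ FewDiv n)).card : ℝ) ≤
        C * x / (Real.log x) ^ A :=
  ⟨all_levels_few, few_density⟩

end Pool.Agent.Results.MP_a542cf_al.FewDivisorsAllLevels
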