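import Pool.Agent.Lib.MP_a542cf_al.R.Final3

/-!
# Nielsen orbits of generating pairs of SL_2(F_p) by commutator trace

`MW.orbitsAt p k` is the set of Nielsen orbits of generating pairs of `SL_2(F_p)` at level `k`
(trace of the commutator), `MW.numOrbits p k` their number and `MW.expected p k` the number predicted
by McCullough and Wanderley at a level `k ≠ 2`: two if `k = -2` and `p ≡ 1 mod 4`, otherwise one.
-/

namespace Pool.Agent.Results.MP_a542cf_al.LargeOrderLevels

open MW

/-- For every `θ > 2/3` there are `C`, `p₀` such that for every prime `p ≥ p₀` there is a natural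
number `Y ≤ C τ(p^2-1)^8`, `Y ≤ exp((log p)^θ)`, with:
* at every level `k ≠ 2` there are `expected p k` Nielsen orbits of generating pairs which contain
  all but at most `Y p^3` generating pairs at level `k`, and they are all the Nielsen orbits of
  generating pairs at level `k` if the elements of trace `k` (other than `-1`) have order at least
  `Y`;
* the number of levels `k ≠ 2` at which the number of orbits is not the expected one is at most
  `Y^2`, and at level `-2` it is the expected one. -/
theorem result (θ : ℝ) (hθ : 2 / 3 < θ) : ∃ C p₀ : ℕ, ∀ (p : ℕ) [Fact p.Prime], p₀ ≤ p →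
    ∃ Y : ℕ, Y ≤ C * (Nat.divisors (p ^ 2 - 1)).card ^ 8 ∧
      (Y : ℝ) ≤ Real.exp ((Real.log p) ^ θ) ∧
    (∀ k : ZMod p, k ≠ 2 → ∃ S ⊆ orbitsAt p k, S.ncard = expected p k ∧
      {P : SL2 (ZMod p) × SL2 (ZMod p) | IsGen P ∧ lev P = k ∧ ∀ o ∈ S, P ∉ o}.ncard ≤
        Y * p ^ 3 ∧
      ((∀ g : SL2 (ZMod p), tr g = k → g ≠ -1 → Y ≤ orderOf g) → S = orbitsAt p k)) ∧
    {k : ZMod p | k ≠ 2 ∧ numOrbits p k ≠ expected p k}.ncard ≤ Y ^ 2 ∧
    numOrbits p (-2) = expected p (-2) :=
  large_order3 θ hθ

end Pool.Agent.Results.MP_a542cf_al.LargeOrderLevels
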